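import Mathlib
import Pool.Agent.H.MP_be97d8_mp.B

namespace Pool.Agent.Results.MP_be97d8_mp.NotPurePoint

open MeasureTheory Set Pool.Agent.H.MP_be97d8_mp
open scoped ENNReal

abbrev Vt (s : ℕ → ℕ) : Type := Σ n : ℕ, Fin (s n)

abbrev Sp (s : ℕ → ℕ) : Type := lp (fun _ : Vt s => ℂ) 2

noncomputable def hop (s : ℕ → ℕ) (ψ : Vt s → ℂ) (n m : ℕ) : ℂ :=
  (∑ j, ψ ⟨m, j⟩) / (√(s n * s m) : ℝ)

def IsH (s : ℕ → ℕ) (l : ℝ) (v : Vt s → ℝ) (T : Sp s →L[ℂ] Sp s) : Prop :=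
  ∀ (ψ : Sp s) (x : Vt s), T ψ x = hop s ψ x.1 (x.1 + 1) +
    (if x.1 = 0 then 0 else hop s ψ x.1 (x.1 - 1)) + (l * v x : ℝ) * ψ x

def PurePoint {E : Type} [NormedAddCommGroup E] [InnerProductSpace ℂ E] [CompleteSpace E]
    (T : E →L[ℂ] E) (a b : ℝ) : Prop :=
  ∀ ψ : E, (∀ f : ℝ → ℝ, Continuous f → (∀ x ∈ Icc a b, f x = 0) → cfc f T ψ = 0) →
    ψ ∈ (⨆ z : ℂ, Module.End.eigenspace (T : Module.End ℂ E) z).topologicalClosure

noncomputable def P₀ : Measure ℝ := (1 / 4 : ℝ≥0∞) • Measure.dirac (-1) +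
  (1 / 2 : ℝ≥0∞) • Measure.dirac 0 + (1 / 4 : ℝ≥0∞) • Measure.dirac 1

lemma P_int (f : ℝ → ℝ) : ∫ x, f x ∂P₀ = f (-1) / 4 + f 0 / 2 + f 1 / 4 := by
  have i : ∀ (c : ℝ≥0∞) (a : ℝ), c ≠ ∞ → Integrable f (c • Measure.dirac a) :=
    fun c a hc => (integrable_dirac (by simp)).smul_measure hc
  rw [P₀, integral_add_measure ((i _ _ (by simp)).add_measure (i _ _ (by simp))) (i _ _ (by simp)),
    integral_add_measure (i _ _ (by simp)) (i _ _ (by simp))]
  simp [integral_smul_measure]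
  ring

lemma P_prob : IsProbabilityMeasure P₀ := by
  constructor
  have : (1 / 4 : ℝ≥0∞) = ENNReal.ofReal (1 / 4) ∧ (1 / 2 : ℝ≥0∞) = ENNReal.ofReal (1 / 2) := by
    simp [ENNReal.ofReal_inv_of_pos]
  simp only [P₀, Measure.add_apply, Measure.smul_apply, measure_univ, smul_eq_mul, mul_one]
  rw [this.1, this.2, ← ENNReal.ofReal_add, ← ENNReal.ofReal_add] <;> norm_num

lemma P_ae : ∀ᵐ x ∂P₀, x = -1 ∨ x = 0 ∨ x = 1 := by
  simp only [P₀, ae_add_measure_iff]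
  refine ⟨⟨?_, ?_⟩, ?_⟩ <;> refine Measure.ae_smul_measure ?_ _ <;> simp

theorem result : ∃ (P : Measure ℝ) (s : ℕ → ℕ) (a b : ℝ), IsProbabilityMeasure P ∧
    P (Icc (-1) 1)ᶜ = 0 ∧ ∫ x, x ∂P = 0 ∧ 0 < ∫ x, x ^ 2 ∂P ∧ ∫ x, x ^ 2 ∂P ≤ 1 ∧
    (∀ n, 0 < s n) ∧ a < b ∧ ∃ G : Set (Vt s → ℝ), MeasurableSet G ∧
      0 < Measure.infinitePi (fun _ => P) G ∧ ∀ l ≥ 4, ∀ v ∈ G,
        ∃ T, IsSelfAdjoint T ∧ IsH s l v T ∧ ¬ PurePoint T a b := by
  haveI := P_prob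
  obtain ⟨s, hs'⟩ : ∃ s : ℕ → ℕ, ∀ n, s n = 3200 * 8 ^ n := ⟨_, fun _ => rfl⟩
  obtain ⟨δ, hδ⟩ : ∃ δ : ℕ → ℝ, ∀ n, δ n = 1 / 20 * (1 / 2) ^ n := ⟨_, fun _ => rfl⟩
  have hs : ∀ n, 0 < s n := fun n => by rw [hs']; positivity
  have δ0 : ∀ n, 0 < δ n := fun n => by rw [hδ]; positivity
  have ae1 : ∀ᵐ x ∂P₀, x ∈ Icc (-1 : ℝ) 1 := by
    filter_upwards [P_ae] with x hx
    rcases hx with rfl | rfl | rfl <;> norm_num
  have ae2 : ∀ᵐ x ∂P₀, x ^ 2 ∈ Icc (-1 : ℝ) 1 := by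
    filter_upwards [P_ae] with x hx
    rcases hx with rfl | rfl | rfl <;> norm_num
  let B : Set (Vx s → ℝ) := (⋃ x, {v | v x ∈ ({-1, 0, 1} : Set ℝ)}ᶜ) ∪ ⋃ n,
    ({v | s n * δ n ≤ |∑ i, v ⟨n, i⟩ - s n * 0|} ∪
      {v | s n * δ n ≤ |∑ i, v ⟨n, i⟩ ^ 2 - s n * (1 / 2)|})
  have mB : MeasurableSet B :=
    (MeasurableSet.iUnion fun x =>
      (measurable_pi_apply x (toFinite _).measurableSet).compl).union (MeasurableSet.iUnion
        fun n => (measurableSet_le measurable_const (by fun_prop)).union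
          (measurableSet_le measurable_const (by fun_prop)))
  have pB : Measure.infinitePi (fun _ => P₀) B < 1 := by
    refine (measure_union_le _ _).trans_lt ?_
    have z : ∀ x, Measure.infinitePi (fun _ : Vx s => P₀) {v | v x ∈ ({-1, 0, 1} : Set ℝ)}ᶜ = 0 :=
      fun x => (measurePreserving_eval_infinitePi
        (fun _ : Vx s => P₀) x).quasiMeasurePreserving.ae P_ae
    rw [measure_iUnion_null z, zero_add]
    have e : ∀ n, 1 / (s n * δ n ^ 2) = 1 / 8 * (1 / 2 : ℝ) ^ n := by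
      intro n
      rw [hs', hδ, show (8 : ℕ) = 2 ^ 3 by norm_num, ← pow_mul, mul_comm 3, pow_mul]
      push_cast
      rw [one_div_pow]
      field_simp
      norm_num
    have sm := hasSum_geometric_two.mul_left (1 / 4 : ℝ)
    refine (measure_iUnion_le _).trans_lt (lt_of_le_of_lt (ENNReal.tsum_le_tsum
      (g := fun n => ENNReal.ofReal (1 / 4 * (1 / 2) ^ n)) fun n => ?_) ?_)
    · have c1 := cheb (s := s) P₀ (fun x => x) measurable_id ae1 n (hs n) (δ0 n)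
      have c2 := cheb (s := s) P₀ (fun x => x ^ 2) (by fun_prop) ae2 n (hs n) (δ0 n)
      rw [P_int, e] at c1 c2
      norm_num only at c1 c2
      refine (measure_union_le _ _).trans ((add_le_add c1 c2).trans (le_of_eq ?_))
      rw [← ENNReal.ofReal_add (by positivity) (by positivity)]
      congr 1
      ring
    · rw [← ENNReal.ofReal_tsum_of_nonneg (fun n => by positivity) sm.summable, sm.tsum_eq]
      exact ENNReal.ofReal_lt_one.2 (by norm_num)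
  refine ⟨P₀, s, 1 / 4, 1 / 2, inferInstance, ae1, by rw [P_int]; norm_num,
    by rw [P_int]; norm_num, by rw [P_int]; norm_num, hs, by norm_num, Bᶜ, mB.compl,
    by rw [prob_compl_eq_one_sub mB]; exact tsub_pos_of_lt pB, fun l hl v hv => ?_⟩
  simp only [B, mem_compl_iff, mem_union, mem_iUnion, mem_setOf_eq, not_or, not_exists, not_not,
    not_le, mem_insert_iff, mem_singleton_iff, mul_zero, sub_zero] at hv
  have hv1 : ∀ x, v x = -1 ∨ v x = 0 ∨ v x = 1 := fun x => by have := hv.1 x; tauto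
  obtain ⟨T, hT, hT'⟩ := exT hs (fun x => l * v x) l fun x => by
    rcases hv1 x with h | h | h <;> simp [h, abs_of_nonneg (by linarith : 0 ≤ l)]
    linarith
  have K : ∀ E : ℝ, |E - 3 / 8| ≤ 1 / 8 → ∀ φ (κ : ℂ), T φ = (E : ℂ) • φ + κ • ee s 0 →
      κ = 0 ∧ φ = 0 := by
    intro E hE
    have e1 : 1 / 4 ≤ E := by linarith [(abs_le.1 hE).1]
    have e2 : E ≤ 1 / 2 := by linarith [(abs_le.1 hE).2]
    have g := fun n => gbound hs v hv1 e1 e2 hl n (hv.2 n).1.le (hv.2 n).2.le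
    refine key hs _ T hT' E _ (fun x => ?_) (le_trans (by norm_num) (g 0).2) (fun n => ?_)
      (Summable.of_nonneg_of_le (fun _ => abs_nonneg _) (fun n => (g n).1) ?_)
    · rcases hv1 x with h | h | h <;> rw [h] <;> intro c <;> linarith
    · have : δ n ≤ 1 / 20 := by
        rw [hδ]
        exact mul_le_of_le_one_right (by norm_num) (pow_le_one₀ (by norm_num) (by norm_num))
      linarith [(abs_le.1 (g n).1).1, (g n).2]
    · simp only [hδ]
      exact (summable_geometric_two.mul_left _).mul_left _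
  refine ⟨T, hT, fun ψ x => ?_, fun h => ?_⟩
  · rw [hT', ee_inner, ee_inner, hop, hop, Real.sqrt_mul (Nat.cast_nonneg _),
      Real.sqrt_mul (Nat.cast_nonneg _)]
    simp only [cc]
    push_cast
    split_ifs <;> ring
  · obtain ⟨ψ, h1, h2⟩ := notpp T hT (3 / 8) (1 / 8) (by norm_num) (by
      by_contra hc
      obtain ⟨U, hU⟩ := spectrum.notMem_iff.1 hc
      have e : (U : Hs s →L[ℂ] Hs s) ((↑U⁻¹ : Hs s →L[ℂ] Hs s) (ee s 0)) = ee s 0 := by
        rw [← ContinuousLinearMap.mul_apply, U.mul_inv]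
        rfl
      rw [hU, ContinuousLinearMap.sub_apply, Algebra.algebraMap_eq_smul_one] at e
      have := (K (3 / 8) (by norm_num) ((↑U⁻¹ : Hs s →L[ℂ] Hs s) (ee s 0)) (-1) (by
        rw [neg_one_smul, Complex.coe_smul, ← sub_eq_add_neg, eq_sub_iff_add_eq,
          ← eq_sub_iff_add_eq']
        exact e.symm)).1
      simp at this) fun x φ hx hφ => (K x hx φ 0 (by simpa using hφ)).2
    norm_num only at h1
    exact h2 (h ψ h1)

end Pool.Agent.Results.MP_be97d8_mp.NotPurePoint
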